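import Pool.Agent.W729.YL.Cover

/-!
The upper bound in the conjecture of Yau for the length of the zero set of Laplace eigenfunctions,
on every smooth Liouville torus.

The torus is `ℝ² / (a ℤ × b ℤ)` with the metric `(f(x) + h(y)) (dx² + dy²)`, where `f` is smooth
and `a`-periodic, `h` is smooth and `b`-periodic and `f(x) + h(y) > 0`.  A function `φ` on it is an
eigenfunction of the Laplace-Beltrami operator with eigenvalue `lam` exactly when
`φ_xx + φ_yy + lam (f(x) + h(y)) φ = 0`.  The length is one-dimensional Hausdorff measure of the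
flat metric `dx² + dy²`, which is bi-Lipschitz equivalent to the given one.
-/

namespace Pool.Agent.Results.MP_c7f82c_an.LiouvilleTori

open Set MeasureTheory ContDiff W729.YL

theorem result (a b : ℝ) (ha : 0 < a) (hb : 0 < b) (f h : ℝ → ℝ)
    (hf : ContDiff ℝ ∞ f) (hh : ContDiff ℝ ∞ h)
    (pf : ∀ x, f (x + a) = f x) (ph : ∀ y, h (y + b) = h y)
    (hpos : ∀ x y, 0 < f x + h y) :
    ∃ C : ℝ, 0 < C ∧ ∀ (lam : ℝ) (φ : ℝ → ℝ → ℝ), 0 < lam →
      ContDiff ℝ ∞ (fun p : ℝ × ℝ => φ p.1 p.2) →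
      (∀ x y, φ (x + a) y = φ x y) → (∀ x y, φ x (y + b) = φ x y) →
      (∀ x y, deriv (deriv (fun s => φ s y)) x + deriv (deriv (fun t => φ x t)) y +
        lam * (f x + h y) * φ x y = 0) →
      (∃ x y, φ x y ≠ 0) →
      μH[1] {z : ℂ | z.re ∈ Icc 0 a ∧ z.im ∈ Icc 0 b ∧ φ z.re z.im = 0} ≤
        ENNReal.ofReal (C * Real.sqrt lam) := by
  obtain ⟨Kf, hKf⟩ := bdd_per ha hf.continuous pf
  obtain ⟨Kh, hKh⟩ := bdd_per hb hh.continuous ph
  have hKf' : ∀ x, f x ≤ Kf := fun x => le_trans (le_abs_self _) (hKf x)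
  have hKh' : ∀ x, h x ≤ Kh := fun x => le_trans (le_abs_self _) (hKh x)
  have hK : 0 < Kf + Kh := by
    have := hpos 0 0
    linarith [hKf' 0, hKh' 0]
  have hsK : 0 < Real.sqrt (Kf + Kh) := Real.sqrt_pos.2 hK
  refine ⟨48 * (a + b) ^ 2 * Real.sqrt (Kf + Kh) / Real.pi, by positivity, ?_⟩
  intro lam φ hl hφ px py heq hne
  have H : Sol (2 * a) (2 * b) f h lam φ := by
    refine ⟨hφ, fun x y => ?_, fun x y => ?_, heq⟩
    · rw [show x + 2 * a = x + a + a by ring, px, px]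
    · rw [show y + 2 * b = y + b + b by ring, py, py]
  have pf2 : ∀ x, f (x + 2 * a) = f x := fun x => by
    rw [show x + 2 * a = x + a + a by ring, pf, pf]
  have ph2 : ∀ x, h (x + 2 * b) = h x := fun x => by
    rw [show x + 2 * b = x + b + b by ring, ph, ph]
  have ha2 : 0 < 2 * a := by linarith
  have hb2 : 0 < 2 * b := by linarith
  have hne' : φ ≠ 0 := by
    rintro rfl
    obtain ⟨x, y, h0⟩ := hne
    exact h0 rfl
  set κ : ℝ := Real.sqrt (lam * (Kf + Kh)) with hκ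
  have hκ0 : 0 < κ := Real.sqrt_pos.2 (mul_pos hl hK)
  have hκ2 : κ ^ 2 = lam * (Kf + Kh) := Real.sq_sqrt (mul_pos hl hK).le
  have hb1 : ∀ y m, Alt (fun x => φ x y) (2 * a) m → (m : ℝ) ≤ 2 * a * κ / Real.pi := by
    intro y m hm
    rw [le_div_iff₀ Real.pi_pos]
    exact hline ha2 hb2 hf hh pf2 ph2 hl hKf' hKh' H hκ0 hκ2.ge y hm
  have hb2' : ∀ x m, Alt (fun y => φ x y) (2 * b) m → (m : ℝ) ≤ 2 * b * κ / Real.pi := by
    intro x m hm
    rw [le_div_iff₀ Real.pi_pos]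
    exact hline hb2 ha2 hh hf ph2 pf2 hl hKh' hKf' H.swap hκ0 (by rw [hκ2]; linarith) x hm
  have key := length_bound ha2 hb2 hf hh pf2 ph2 hl hpos H hne' hκ0 (fun x y => by
    rw [hκ2]
    have := hKf' x
    have := hKh' y
    gcongr) (K1 := 2 * a * κ / Real.pi) (K2 := 2 * b * κ / Real.pi)
    (by positivity) (by positivity) hb1 hb2'
  have e1 : 2 * a / 2 = a := by ring
  have e2 : 2 * b / 2 = b := by ring
  rw [e1, e2] at key
  refine le_trans key (ENNReal.ofReal_le_ofReal (le_of_eq ?_))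
  have e3 : κ = Real.sqrt lam * Real.sqrt (Kf + Kh) := by
    rw [hκ, Real.sqrt_mul hl.le]
  rw [e3]
  ring

end Pool.Agent.Results.MP_c7f82c_an.LiouvilleTori
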